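import Mathlib

/-!
Part S1 of project ES (helper70): the structure of a coset of a numerical semigroup (helper281).
-/

set_option autoImplicit false

namespace Pool.Agent.N281.ES

theorem s1 (M₁ M : Set ℕ) (h11 : ∀ a ∈ M₁, ∀ b ∈ M₁, a + b ∈ M₁)
    (h1M : ∀ a ∈ M₁, ∀ b ∈ M, a + b ∈ M) (hMM : ∀ a ∈ M, ∀ b ∈ M, a + b ∈ M₁)
    (hev : ∀ n ∈ M, Even n) (hne : ∃ n ∈ M, 0 < n) : ∃ J T : ℕ, 0 < J ∧ Even J ∧
      (((∀ n ∈ M, J ∣ n) ∧ ∀ s ≥ T, J * s ∈ M) ∨
        ((∀ n ∈ M, ∃ s : ℕ, Odd s ∧ n = J * s) ∧ ∀ s ≥ T, Odd s → J * s ∈ M)) := by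
  obtain ⟨n0, hn0, hpos⟩ := hne
  obtain ⟨J1, hJ1⟩ : ∃ J1, J1 = Nat.setGcd M₁ := ⟨_, rfl⟩
  have hdvd : ∀ a ∈ M₁, J1 ∣ a := fun a ha => by
    rw [hJ1]
    exact Nat.setGcd_dvd_of_mem ha
  have h2 : J1 ∣ 2 * n0 := by
    have := hdvd _ (hMM n0 hn0 n0 hn0)
    rwa [← two_mul] at this
  have hJ1pos : 0 < J1 := Nat.pos_of_dvd_of_pos h2 (by omega)
  have hcl : ∀ x ∈ AddSubmonoid.closure M₁, x = 0 ∨ x ∈ M₁ := by
    intro x hx
    induction hx using AddSubmonoid.closure_induction with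
    | mem x hx => exact Or.inr hx
    | zero => exact Or.inl rfl
    | add x y _ _ hx hy =>
      rcases hx with hx | hx
      · rcases hy with hy | hy
        · left; omega
        · right; rw [hx, zero_add]; exact hy
      · rcases hy with hy | hy
        · right; rw [hy, add_zero]; exact hx
        · right; exact h11 x hx y hy
  obtain ⟨N, hN⟩ : ∃ N, ∀ m ≥ N, J1 ∣ m → m ∈ AddSubmonoid.closure M₁ := by
    rw [hJ1]
    exact Nat.exists_mem_closure_of_ge M₁
  have hbig : ∀ m ≥ N + 1, J1 ∣ m → m + n0 ∈ M := by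
    intro m hm hd
    rcases hcl m (hN m (by omega) hd) with h | h
    · omega
    · exact h1M m h n0 hn0
  have hsum : ∀ n ∈ M, J1 ∣ n + n0 := fun n hn => hdvd _ (hMM n hn n0 hn0)
  by_cases hd : J1 ∣ n0
  · have hmem : ∀ s ≥ n0 + N + 1, J1 * s ∈ M := by
      intro s hs
      have h3 : s ≤ J1 * s := Nat.le_mul_of_pos_left s hJ1pos
      have h4 : J1 * s = (J1 * s - n0) + n0 := by omega
      rw [h4]
      exact hbig _ (by omega) (Nat.dvd_sub (dvd_mul_right _ _) hd)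
    refine ⟨J1, n0 + N + 1, hJ1pos, ?_, Or.inl ⟨fun n hn => ?_, hmem⟩⟩
    · have e1 := hev _ (hmem (n0 + N + 1) le_rfl)
      have e2 := hev _ (hmem (n0 + N + 1 + 1) (by omega))
      rw [mul_add, mul_one] at e2
      exact (Nat.even_add.1 e2).1 e1
    · exact (Nat.dvd_add_left hd).1 (hsum n hn)
  · have hJev : Even J1 := by
      by_contra ho
      rw [Nat.not_even_iff_odd] at ho
      exact hd ((Nat.Coprime.dvd_mul_left (Nat.coprime_two_right.2 ho)).1 h2)
    obtain ⟨J', hJ'⟩ := hJev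
    have hJ'' : J1 = 2 * J' := by omega
    have hJ'pos : 0 < J' := by omega
    have h3 : J' ∣ n0 := by
      rw [hJ''] at h2
      exact Nat.dvd_of_mul_dvd_mul_left (by norm_num) h2
    obtain ⟨t, ht⟩ := h3
    have htodd : Odd t := by
      by_contra he
      rw [Nat.not_odd_iff_even] at he
      obtain ⟨u, hu⟩ := he
      apply hd
      rw [ht, hu, hJ'']
      exact ⟨u, by ring⟩
    have hmem : ∀ s ≥ t + N + 1, Odd s → J' * s ∈ M := by
      intro s hs hso
      have h4 : J' * s = J' * (s - t) + n0 := by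
        rw [ht, ← mul_add]
        congr 1
        omega
      rw [h4]
      have h5 : Even (s - t) := Nat.Odd.sub_odd hso htodd
      obtain ⟨u, hu⟩ := h5
      have h6 : s - t ≤ J' * (s - t) := Nat.le_mul_of_pos_left _ hJ'pos
      refine hbig _ (by omega) ?_
      rw [hu, hJ'']
      exact ⟨u, by ring⟩
    refine ⟨J', t + N + 1, hJ'pos, ?_, Or.inr ⟨fun n hn => ?_, hmem⟩⟩
    · have h4 : Odd (2 * (t + N + 1) + 1) := ⟨_, rfl⟩
      have h5 := hev _ (hmem _ (by omega) h4)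
      rcases Nat.even_mul.1 h5 with h | h
      · exact h
      · exact absurd h (Nat.not_even_iff_odd.2 h4)
    · obtain ⟨k, hk⟩ := hsum n hn
      rw [hJ'', ht] at hk
      have h4 : J' ∣ n := by
        have h5 : J' ∣ n + J' * t := by
          rw [hk]
          exact ⟨2 * k, by ring⟩
        exact (Nat.dvd_add_left (dvd_mul_right _ _)).1 h5
      obtain ⟨s, hs⟩ := h4
      refine ⟨s, ?_, hs⟩
      rw [hs, ← mul_add, mul_comm 2 J', mul_assoc] at hk
      have h5 : s + t = 2 * k := Nat.eq_of_mul_eq_mul_left hJ'pos hk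
      obtain ⟨v, hv⟩ := htodd
      exact ⟨k - v - 1, by omega⟩

end Pool.Agent.N281.ES
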