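import Pool.Agent.N70.ES.Stm
import Pool.Agent.N281.ES.S1a

/-!
Part S1 of project ES (helper70): the structure of a coset of a numerical semigroup (helper281).
-/

set_option autoImplicit false

namespace Pool.Agent.N281.ES

theorem t_s1 : Pool.Agent.N70.ES.St_s1 := fun M₁ M h11 h1M hMM hev hne =>
  s1 M₁ M h11 h1M hMM hev hne

end Pool.Agent.N281.ES
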